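import Pool.Agent.TH703.HU.Stm

/-!
# Project HU: geometry of the body and its convex hull (job 4294)
-/

set_option autoImplicit false

open MeasureTheory Set Metric Filter Topology
open Pool.Agent.TH304.MI Pool.Agent.TH703.HU

noncomputable section

namespace Pool.Agent.TH169.HU

/-! ## Coordinates -/

/-- the point with given coordinates -/
def mk {m : ℕ} (a b s : ℝ) (y : Fin (2 * m) → ℝ) : PP (2 * m + 1) :=
  WithLp.toLp 2 (Fin.cons a (Fin.cons b (Fin.cons s y)))

lemma xc_mk {m : ℕ} (a b s : ℝ) (y : Fin (2 * m) → ℝ) : xc (mk a b s y) = ⟨a, b⟩ := rfl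

lemma yc_mk_zero {m : ℕ} (a b s : ℝ) (y : Fin (2 * m) → ℝ) : yc (mk a b s y) 0 = s := rfl

lemma yc_mk_succ {m : ℕ} (a b s : ℝ) (y : Fin (2 * m) → ℝ) (i : Fin (2 * m)) :
    yc (mk a b s y) i.succ = y i := rfl

lemma ext4 {m : ℕ} {p q : PP (2 * m + 1)} (h0 : (xc p).re = (xc q).re)
    (h1 : (xc p).im = (xc q).im) (h2 : yc p 0 = yc q 0)
    (h3 : ∀ i : Fin (2 * m), yc p i.succ = yc q i.succ) : p = q := by
  ext k
  refine Fin.cases h0 (fun k => ?_) k
  refine Fin.cases h1 (fun k => ?_) k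
  refine Fin.cases h2 (fun k => ?_) k
  exact h3 k

lemma re_add {b : ℕ} (p q : PP b) : (xc (p + q)).re = (xc p).re + (xc q).re := rfl
lemma im_add {b : ℕ} (p q : PP b) : (xc (p + q)).im = (xc p).im + (xc q).im := rfl
lemma yc_add' {b : ℕ} (p q : PP b) (i : Fin b) : yc (p + q) i = yc p i + yc q i := rfl
lemma re_smul {b : ℕ} (c : ℝ) (p : PP b) : (xc (c • p)).re = c * (xc p).re := rfl
lemma im_smul {b : ℕ} (c : ℝ) (p : PP b) : (xc (c • p)).im = c * (xc p).im := rfl
lemma yc_smul' {b : ℕ} (c : ℝ) (p : PP b) (i : Fin b) : yc (c • p) i = c * yc p i := rfl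

lemma cont_coord {n : ℕ} (k : Fin n) : Continuous fun p : EuclideanSpace ℝ (Fin n) => p k :=
  (EuclideanSpace.proj (𝕜 := ℝ) k).continuous

lemma cont_re {b : ℕ} : Continuous fun p : PP b => (xc p).re := cont_coord 0
lemma cont_im {b : ℕ} : Continuous fun p : PP b => (xc p).im := cont_coord 1
lemma cont_yc {b : ℕ} (i : Fin b) : Continuous fun p : PP b => yc p i := cont_coord i.succ.succ

lemma cont_xc {b : ℕ} : Continuous fun p : PP b => xc p := by
  have h : (fun p : PP b => xc p) = fun p => ((xc p).re : ℂ) + (xc p).im * Complex.I := by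
    funext p
    exact (Complex.re_add_im _).symm
  rw [h]
  exact (Complex.continuous_ofReal.comp cont_re).add
    ((Complex.continuous_ofReal.comp cont_im).mul continuous_const)

/-! ## A0 -/

lemma pm_cases {m : ℕ} (p : PP (2 * m + 1)) (i : Fin (2 * m)) :
    (if (i : ℕ) < m then |yc p i.succ| < 1 / 2 + yc p 0 else |yc p i.succ| < 1 / 2 - yc p 0) ↔
      |yc p i.succ| < 1 / 2 + (if (i : ℕ) < m then (1 : ℝ) else -1) * yc p 0 := by
  split_ifs
  · rw [one_mul]
  · rw [neg_one_mul, ← sub_eq_add_neg]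

lemma conv_aux {x y a b u v σ : ℝ} {s t : ℝ} (hx : |x| < 1 / 2 + σ * s) (hy : |y| < 1 / 2 + σ * t)
    (ha : 0 ≤ a) (hb : 0 ≤ b) (hab : a + b = 1) (hu : u = a * x + b * y) (hv : v = a * s + b * t) :
    |u| < 1 / 2 + σ * v := by
  rw [abs_lt] at *
  rcases ha.eq_or_lt with h | h
  · have hb1 : b = 1 := by linarith
    subst hb1
    rw [hu, hv, ← h]
    constructor <;> linarith [hy.1, hy.2]
  · have h1 := mul_lt_mul_of_pos_left hx.1 h
    have h2 := mul_lt_mul_of_pos_left hx.2 h
    have h3 := mul_le_mul_of_nonneg_left hy.1.le hb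
    have h4 := mul_le_mul_of_nonneg_left hy.2.le hb
    rw [hu, hv]
    have hab' : (a + b) * (1 / 2) = 1 / 2 := by rw [hab, one_mul]
    constructor <;> nlinarith

theorem a0 : S_A0 := by
  intro m
  refine ⟨?_, ?_, ?_, ?_⟩
  · have h : Bd m = ({p : PP (2 * m + 1) | |(xc p).re| < 1 / 2 + yc p 0} ∩
        {p | |(xc p).im| < 1 / 2 - yc p 0}) ∩
        ⋂ i : Fin (2 * m), {p | |yc p i.succ| < 1 / 2 +
          (if (i : ℕ) < m then (1 : ℝ) else -1) * yc p 0} := by
      ext p
      simp only [Bd, Set.mem_ofPred_eq, Set.mem_inter_iff, Set.mem_iInter, pm_cases, and_assoc]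
    rw [h]
    refine IsOpen.inter (IsOpen.inter ?_ ?_) (isOpen_iInter_of_finite fun i => ?_)
    · exact isOpen_lt cont_re.abs (continuous_const.add (cont_yc 0))
    · exact isOpen_lt cont_im.abs (continuous_const.sub (cont_yc 0))
    · exact isOpen_lt (cont_yc _).abs (continuous_const.add (continuous_const.mul (cont_yc 0)))
  · rintro p ⟨hp0, hp1, hp2⟩ q ⟨hq0, hq1, hq2⟩ a b ha hb hab
    refine ⟨?_, ?_, fun i => ?_⟩
    · have := conv_aux (σ := 1) (by rw [one_mul]; exact hp0) (by rw [one_mul]; exact hq0)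
        ha hb hab (rfl) (rfl)
      rw [one_mul] at this
      exact this
    · have := conv_aux (σ := -1) (by rw [neg_one_mul, ← sub_eq_add_neg]; exact hp1)
        (by rw [neg_one_mul, ← sub_eq_add_neg]; exact hq1) ha hb hab (rfl) (rfl)
      rw [neg_one_mul, ← sub_eq_add_neg] at this
      exact this
    · rw [pm_cases]
      exact conv_aux ((pm_cases p i).1 (hp2 i)) ((pm_cases q i).1 (hq2 i)) ha hb hab rfl rfl
  · rw [isBounded_iff_forall_norm_le]
    refine ⟨Real.sqrt (2 * m + 1 + 2 : ℕ), fun p hp => ?_⟩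
    obtain ⟨hp0, hp1, hp2⟩ := hp
    have hs1 : -(1 / 2) < yc p 0 := by have := abs_nonneg (xc p).re; linarith
    have hs2 : yc p 0 < 1 / 2 := by have := abs_nonneg (xc p).im; linarith
    rw [EuclideanSpace.norm_eq]
    apply Real.sqrt_le_sqrt
    calc ∑ i, ‖p i‖ ^ 2 ≤ ∑ _i : Fin (2 * m + 1 + 2), (1 : ℝ) := by
          apply Finset.sum_le_sum
          intro k _
          rw [Real.norm_eq_abs]
          apply pow_le_one₀ (abs_nonneg _)
          revert k
          intro k _
          refine Fin.cases ?_ (fun k => ?_) k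
          · have : |p 0| < 1 / 2 + yc p 0 := hp0
            linarith
          refine Fin.cases ?_ (fun k => ?_) k
          · have : |p 1| < 1 / 2 - yc p 0 := hp1
            have h : |p (Fin.succ 0)| = |p 1| := rfl
            linarith
          refine Fin.cases ?_ (fun k => ?_) k
          · have h : |p (Fin.succ (Fin.succ 0))| = |yc p 0| := rfl
            rw [h, abs_le]
            constructor <;> linarith
          · have h := (pm_cases p k).1 (hp2 k)
            have h' : |p k.succ.succ.succ| = |yc p k.succ| := rfl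
            rw [h']
            split_ifs at h <;> linarith
      _ = ((2 * m + 1 + 2 : ℕ) : ℝ) := by simp
  · refine ⟨?_, ?_, fun i => ?_⟩
    · change |(0 : ℝ)| < 1 / 2 + 0
      norm_num
    · change |(0 : ℝ)| < 1 / 2 - 0
      norm_num
    · rw [pm_cases]
      change |(0 : ℝ)| < 1 / 2 + _ * 0
      norm_num

/-! ## A4 -/

/-- points near the corners -/
def NC (m : ℕ) (ρ : ℝ) : Set (PP (2 * m + 1)) :=
  {p | p ∈ Bd m ∧ (‖xc p - 1‖ < ρ ∨ ‖xc p + 1‖ < ρ ∨ ‖xc p - Complex.I‖ < ρ ∨
    ‖xc p + Complex.I‖ < ρ)}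

lemma corner {m : ℕ} {ρ : ℝ} (hρ : 0 < ρ) (Q : PP (2 * m + 1))
    (h1 : ∀ t : ℝ, 0 < t → t < 1 → (1 - t) • Q ∈ Bd m)
    (h2 : ∀ t : ℝ, 0 < t → t < ρ → (‖xc ((1 - t) • Q) - 1‖ < ρ ∨ ‖xc ((1 - t) • Q) + 1‖ < ρ ∨
      ‖xc ((1 - t) • Q) - Complex.I‖ < ρ ∨ ‖xc ((1 - t) • Q) + Complex.I‖ < ρ)) :
    Q ∈ closure (convexHull ℝ (NC m ρ)) := by
  have ht : Tendsto (fun t : ℝ => (1 - t) • Q) (𝓝[>] 0) (𝓝 Q) := by
    have h : Continuous fun t : ℝ => (1 - t) • Q := by fun_prop
    have h0 := h.tendsto 0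
    simp only [sub_zero, one_smul] at h0
    exact h0.mono_left nhdsWithin_le_nhds
  refine mem_closure_of_tendsto ht ?_
  have h3 : ∀ᶠ t : ℝ in 𝓝[>] 0, t < min 1 ρ :=
    nhdsWithin_le_nhds (Iio_mem_nhds (lt_min one_pos hρ))
  filter_upwards [h3, self_mem_nhdsWithin] with t ht1 ht0
  exact subset_convexHull ℝ _ ⟨h1 t ht0 (ht1.trans_le (min_le_left _ _)),
    h2 t ht0 (ht1.trans_le (min_le_right _ _))⟩

lemma norm_aux {a b t : ℝ} (_ht : 0 < t) (h : |a| + |b| ≤ t) {ρ : ℝ} (hρ : t < ρ) :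
    ‖(⟨a, b⟩ : ℂ)‖ < ρ := by
  refine (Complex.norm_le_abs_re_add_abs_im _).trans_lt ?_
  exact lt_of_le_of_lt h hρ

theorem a4 (h : S_A0) : S_A4 := by
  intro m ρ hρ
  obtain ⟨hopen, hconv, -, h0⟩ := h m
  change convexHull ℝ (NC m ρ) = Bd m
  apply Subset.antisymm
  · exact convexHull_min (fun p hp => hp.1) hconv
  -- the hull is open
  have hNo : IsOpen (NC m ρ) := by
    have e : NC m ρ = Bd m ∩ ({p | ‖xc p - 1‖ < ρ} ∪ ({p | ‖xc p + 1‖ < ρ} ∪
        ({p | ‖xc p - Complex.I‖ < ρ} ∪ {p | ‖xc p + Complex.I‖ < ρ}))) := by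
      ext p
      rfl
    rw [e]
    refine hopen.inter (IsOpen.union ?_ (IsOpen.union ?_ (IsOpen.union ?_ ?_)))
    · exact isOpen_lt (cont_xc.sub continuous_const).norm continuous_const
    · exact isOpen_lt (cont_xc.add continuous_const).norm continuous_const
    · exact isOpen_lt (cont_xc.sub continuous_const).norm continuous_const
    · exact isOpen_lt (cont_xc.add continuous_const).norm continuous_const
  have hHo : IsOpen (convexHull ℝ (NC m ρ)) := hNo.convexHull
  have hHc : Convex ℝ (convexHull ℝ (NC m ρ)) := convex_convexHull ℝ _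
  -- every point of the body is in the closure of the hull
  have key : Bd m ⊆ closure (convexHull ℝ (NC m ρ)) := by
    rintro p ⟨hp0, hp1, hp2⟩
    obtain ⟨s, hs⟩ : ∃ s, s = yc p 0 := ⟨_, rfl⟩
    obtain ⟨σ, hσ⟩ : ∃ σ, σ = 1 / 2 + s := ⟨_, rfl⟩
    rw [← hs] at hp0 hp1
    have hre := abs_nonneg (xc p).re
    have him := abs_nonneg (xc p).im
    have hσ0 : 0 < σ := by linarith
    have hσ1 : 0 < 1 - σ := by linarith
    have hre' : |(xc p).re / σ| < 1 := by
      rw [abs_div, abs_of_pos hσ0, div_lt_one hσ0]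
      linarith
    have him' : |(xc p).im / (1 - σ)| < 1 := by
      rw [abs_div, abs_of_pos hσ1, div_lt_one hσ1]
      linarith
    have hy1 : ∀ i : Fin (2 * m), (i : ℕ) < m → |yc p i.succ / σ| < 1 := by
      intro i hi
      have := hp2 i
      rw [if_pos hi, ← hs] at this
      rw [abs_div, abs_of_pos hσ0, div_lt_one hσ0]
      linarith
    have hy2 : ∀ i : Fin (2 * m), ¬ (i : ℕ) < m → |yc p i.succ / (1 - σ)| < 1 := by
      intro i hi
      have := hp2 i
      rw [if_neg hi, ← hs] at this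
      rw [abs_div, abs_of_pos hσ1, div_lt_one hσ1]
      linarith
    -- the corners
    obtain ⟨y1, hy1d⟩ : ∃ y1 : Fin (2 * m) → ℝ,
        y1 = fun i : Fin (2 * m) => if (i : ℕ) < m then yc p i.succ / σ else 0 := ⟨_, rfl⟩
    obtain ⟨y2, hy2d⟩ : ∃ y2 : Fin (2 * m) → ℝ,
        y2 = fun i : Fin (2 * m) => if (i : ℕ) < m then 0 else yc p i.succ / (1 - σ) := ⟨_, rfl⟩
    have hc1 : ∀ e : ℝ, |e| = 1 → ∀ t : ℝ, 0 < t → t < 1 →
        (1 - t) • mk e 0 (1 / 2) y1 ∈ Bd m := by
      intro e he t ht0 ht1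
      refine ⟨?_, ?_, fun i => ?_⟩
      · change |(1 - t) * e| < 1 / 2 + (1 - t) * (1 / 2)
        rw [abs_mul, he, abs_of_pos (by linarith)]
        linarith
      · change |(1 - t) * 0| < 1 / 2 - (1 - t) * (1 / 2)
        rw [mul_zero, abs_zero]
        linarith
      · change if (i : ℕ) < m then |(1 - t) * y1 i| < 1 / 2 + (1 - t) * (1 / 2)
          else |(1 - t) * y1 i| < 1 / 2 - (1 - t) * (1 / 2)
        rw [hy1d]
        split_ifs with hi
        · have := hy1 i hi
          simp only [if_pos hi]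
          rw [abs_mul, abs_of_pos (by linarith : 0 < 1 - t)]
          nlinarith [abs_nonneg (yc p i.succ / σ)]
        · simp only [if_neg hi]
          rw [mul_zero, abs_zero]
          linarith
    have hc2 : ∀ e : ℝ, |e| = 1 → ∀ t : ℝ, 0 < t → t < 1 →
        (1 - t) • mk 0 e (-(1 / 2)) y2 ∈ Bd m := by
      intro e he t ht0 ht1
      refine ⟨?_, ?_, fun i => ?_⟩
      · change |(1 - t) * 0| < 1 / 2 + (1 - t) * (-(1 / 2))
        rw [mul_zero, abs_zero]
        linarith
      · change |(1 - t) * e| < 1 / 2 - (1 - t) * (-(1 / 2))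
        rw [abs_mul, he, abs_of_pos (by linarith)]
        linarith
      · change if (i : ℕ) < m then |(1 - t) * y2 i| < 1 / 2 + (1 - t) * (-(1 / 2))
          else |(1 - t) * y2 i| < 1 / 2 - (1 - t) * (-(1 / 2))
        rw [hy2d]
        split_ifs with hi
        · simp only [if_pos hi]
          rw [mul_zero, abs_zero]
          linarith
        · have := hy2 i hi
          simp only [if_neg hi]
          rw [abs_mul, abs_of_pos (by linarith : 0 < 1 - t)]
          nlinarith [abs_nonneg (yc p i.succ / (1 - σ))]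
    have q1 : mk 1 0 (1 / 2) y1 ∈ closure (convexHull ℝ (NC m ρ)) := by
      refine corner hρ _ (hc1 1 abs_one) fun t ht0 htρ => Or.inl ?_
      have e : xc ((1 - t) • mk (m := m) 1 0 (1 / 2) y1) - 1 = ⟨-t, 0⟩ := by
        apply Complex.ext
        · change (1 - t) * 1 - 1 = -t
          ring
        · change (1 - t) * 0 - 0 = (0 : ℝ)
          ring
      rw [e]
      exact norm_aux ht0 (by rw [abs_neg, abs_zero, abs_of_pos ht0, add_zero]) htρ
    have q2 : mk (-1) 0 (1 / 2) y1 ∈ closure (convexHull ℝ (NC m ρ)) := by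
      refine corner hρ _ (hc1 (-1) (by simp)) fun t ht0 htρ => Or.inr (Or.inl ?_)
      have e : xc ((1 - t) • mk (m := m) (-1) 0 (1 / 2) y1) + 1 = ⟨t, 0⟩ := by
        apply Complex.ext
        · change (1 - t) * (-1) + 1 = t
          ring
        · change (1 - t) * 0 + 0 = (0 : ℝ)
          ring
      rw [e]
      exact norm_aux ht0 (by rw [abs_zero, abs_of_pos ht0, add_zero]) htρ
    have q3 : mk 0 1 (-(1 / 2)) y2 ∈ closure (convexHull ℝ (NC m ρ)) := by
      refine corner hρ _ (hc2 1 abs_one) fun t ht0 htρ => Or.inr (Or.inr (Or.inl ?_))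
      have e : xc ((1 - t) • mk (m := m) 0 1 (-(1 / 2)) y2) - Complex.I = ⟨0, -t⟩ := by
        apply Complex.ext
        · change (1 - t) * 0 - 0 = (0 : ℝ)
          ring
        · change (1 - t) * 1 - 1 = -t
          ring
      rw [e]
      exact norm_aux ht0 (by rw [abs_neg, abs_zero, abs_of_pos ht0, zero_add]) htρ
    have q4 : mk 0 (-1) (-(1 / 2)) y2 ∈ closure (convexHull ℝ (NC m ρ)) := by
      refine corner hρ _ (hc2 (-1) (by simp)) fun t ht0 htρ => Or.inr (Or.inr (Or.inr ?_))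
      have e : xc ((1 - t) • mk (m := m) 0 (-1) (-(1 / 2)) y2) + Complex.I = ⟨0, t⟩ := by
        apply Complex.ext
        · change (1 - t) * 0 + 0 = (0 : ℝ)
          ring
        · change (1 - t) * (-1) + 1 = t
          ring
      rw [e]
      exact norm_aux ht0 (by rw [abs_zero, abs_of_pos ht0, zero_add]) htρ
    -- the convex combinations
    have hcc := hHc.closure
    rw [abs_lt] at hre' him'
    have p1 : ((1 + (xc p).re / σ) / 2) • mk (m := m) 1 0 (1 / 2) y1 +
        ((1 - (xc p).re / σ) / 2) • mk (m := m) (-1) 0 (1 / 2) y1 ∈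
        closure (convexHull ℝ (NC m ρ)) :=
      hcc q1 q2 (by linarith [hre'.1]) (by linarith [hre'.2]) (by ring)
    have p2 : ((1 + (xc p).im / (1 - σ)) / 2) • mk (m := m) 0 1 (-(1 / 2)) y2 +
        ((1 - (xc p).im / (1 - σ)) / 2) • mk (m := m) 0 (-1) (-(1 / 2)) y2 ∈
        closure (convexHull ℝ (NC m ρ)) :=
      hcc q3 q4 (by linarith [him'.1]) (by linarith [him'.2]) (by ring)
    have p3 := hcc p1 p2 hσ0.le hσ1.le (by ring)
    convert p3 using 1
    have hσne : σ ≠ 0 := hσ0.ne'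
    have hσne' : 1 - σ ≠ 0 := hσ1.ne'
    apply ext4
    · simp only [re_add, re_smul, xc_mk]
      field_simp
      ring
    · simp only [im_add, im_smul, xc_mk]
      field_simp
      ring
    · simp only [yc_add', yc_smul', yc_mk_zero]
      rw [← hs, hσ]
      ring
    · intro i
      simp only [yc_add', yc_smul', yc_mk_succ]
      rw [hy1d, hy2d]
      by_cases hi : (i : ℕ) < m
      · simp only [if_pos hi]
        field_simp
        ring
      · simp only [if_neg hi]
        field_simp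
        ring
  have hne : (interior (convexHull ℝ (NC m ρ))).Nonempty := by
    rw [hHo.interior_eq]
    by_contra hcon
    rw [Set.not_nonempty_iff_eq_empty] at hcon
    have := key h0
    rw [hcon, closure_empty] at this
    exact this
  calc Bd m ⊆ interior (closure (convexHull ℝ (NC m ρ))) := interior_maximal key hopen
    _ = interior (convexHull ℝ (NC m ρ)) :=
        hHc.interior_closure_eq_interior_of_nonempty_interior hne
    _ = convexHull ℝ (NC m ρ) := hHo.interior_eq

end Pool.Agent.TH169.HU
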